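import Mathlib
import Pool.Agent.H854R3.CR.Stmts

set_option autoImplicit false

namespace Pool.Agent.H150R3.CR

open Pool.Agent.H854R3.CR

section
variable {R : Type} [NonUnitalRing R]

/-- the list `[L (n-1), ..., L 0]` -/
def lst (L : ℕ → AddSubgroup R) : ℕ → List (AddSubgroup R)
  | 0 => []
  | n + 1 => L n :: lst L n

theorem lst_length (L : ℕ → AddSubgroup R) (n : ℕ) : (lst L n).length = n := by
  induction n with
  | zero => rfl
  | succ n ih => rw [lst, List.length_cons, ih]

theorem mem_lst {L : ℕ → AddSubgroup R} {n : ℕ} {N : AddSubgroup R} (h : N ∈ lst L n) :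
    ∃ i, i < n ∧ L i = N := by
  induction n with
  | zero => simp [lst] at h
  | succ n ih =>
    rw [lst, List.mem_cons] at h
    rcases h with h | h
    · exact ⟨n, Nat.lt_succ_self n, h.symm⟩
    · obtain ⟨i, hi, h1⟩ := ih h
      exact ⟨i, by omega, h1⟩

variable {A M : Type} [Ring A] [AddCommGroup M] [Module A M]

/-- annihilator of a vector in `R` -/
def Ann (ι : R →ₙ+* A) (w : M) : AddSubgroup R where
  carrier := {r | ι r • w = 0}
  zero_mem' := by
    show ι 0 • w = 0
    rw [map_zero, zero_smul]
  add_mem' := by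
    intro a b ha hb
    show ι (a + b) • w = 0
    have ha' : ι a • w = 0 := ha
    have hb' : ι b • w = 0 := hb
    rw [map_add, add_smul, ha', hb', add_zero]
  neg_mem' := by
    intro a ha
    show ι (-a) • w = 0
    have ha' : ι a • w = 0 := ha
    rw [map_neg, neg_smul, ha', neg_zero]

theorem gen [IsSimpleModule A M] (ι : R →ₙ+* A) (hid : ∀ (r : R) (a : A), ∃ s, ι s = ι r * a)
    (k : ℕ) (hx : ∃ x : R, x ≠ 0) (hfaith : ∀ r : R, r ≠ 0 → ∃ v : M, ι r • v ≠ 0)
    (hk : ∀ l : List (AddSubgroup R), GoodList l → l.length ≤ k) :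
    Module.Finite (Module.End A M) M := by
  classical
  by_contra hinf
  have h1 : ((k + 1 : ℕ) : Cardinal) ≤ Module.rank (Module.End A M) M := by
    apply le_trans (Cardinal.natCast_lt_aleph0).le
    rw [← not_lt]
    intro h
    exact hinf (Module.rank_lt_aleph0_iff.1 h)
  obtain ⟨s, hs, hli⟩ := exists_finset_linearIndependent_of_le_rank h1
  let e : Fin (k + 1) ≃ s := (Fintype.equivFinOfCardEq (by simpa using hs)).symm
  let v : Fin (k + 1) → M := fun i => (e i : M)
  have hv : LinearIndependent (Module.End A M) v := by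
    have h2 : LinearIndependent (Module.End A M) (fun i : s => (i : M)) := hli
    exact h2.comp e e.injective
  have hr : ∀ j : Fin (k + 1), ∃ a : A, ∀ i, a • v i = if i = j then v j else 0 := by
    intro j
    obtain ⟨g, hg⟩ := LinearMap.exists_extend ((Module.Basis.span hv).constr ℤ
      (fun i => if i = j then v j else 0))
    have hgv : ∀ i, g (v i) = if i = j then v j else 0 := by
      intro i
      have h3 := congrArg (fun h => h (Module.Basis.span hv i)) hg
      simp only [LinearMap.comp_apply, Module.Basis.constr_basis] at h3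
      rw [← h3]
      congr 1
      simp [Module.Basis.span_apply]
    obtain ⟨r, hr⟩ := jacobson_density g (Finset.univ.image v)
    refine ⟨r, fun i => ?_⟩
    rw [← hr (v i) (Finset.mem_image_of_mem v (Finset.mem_univ i)), hgv]
  let w : ℕ → M := fun n => if h : n < k + 1 then v ⟨n, h⟩ else 0
  have hw : ∀ n (h : n < k + 1), w n = v ⟨n, h⟩ := fun n h => dif_pos h
  -- the annihilator of a nonzero vector is proper
  have hprop : ∀ u : M, u ≠ 0 → Ann ι u ≠ ⊤ := by
    intro u hu htop
    obtain ⟨x, hx0⟩ := hx
    obtain ⟨u', hu'⟩ := hfaith x hx0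
    obtain ⟨a, ha⟩ := IsSimpleModule.toSpanSingleton_surjective A hu u'
    rw [LinearMap.toSpanSingleton_apply] at ha
    apply hu'
    obtain ⟨y, hy⟩ := hid x a
    rw [← ha, smul_smul, ← hy]
    have : y ∈ Ann ι u := by rw [htop]; trivial
    exact this
  have hgood : ∀ n, n ≤ k + 1 → GoodList (lst (fun n => Ann ι (w n)) n) := by
    intro n
    induction n with
    | zero => intro _; trivial
    | succ n ih =>
      intro hn
      have hn' : n < k + 1 := by omega
      refine ⟨?_, ?_, ?_, ih (by omega)⟩
      · apply hprop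
        rw [hw n hn']
        exact hv.ne_zero _
      · intro x _ y hy
        have hy' : ι y • w n = 0 := hy
        show ι (x * y) • w n = 0
        rw [map_mul, mul_smul, hy', smul_zero]
      · intro r
        obtain ⟨a, ha⟩ := hr ⟨n, hn'⟩
        obtain ⟨y, hy⟩ := hid r a
        refine ⟨y, r - y, ?_, ?_, by abel⟩
        · intro N hN
          obtain ⟨i, hi, rfl⟩ := mem_lst hN
          show ι y • w i = 0
          rw [hy, mul_smul, hw i (by omega), ha, if_neg, smul_zero]
          intro h
          have := congrArg Fin.val h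
          simp only at this
          omega
        · show ι (r - y) • w n = 0
          rw [map_sub, hy, sub_smul, mul_smul, hw n hn', ha, if_pos rfl, sub_self]
  have h2 := hk _ (hgood (k + 1) le_rfl)
  rw [lst_length] at h2
  omega

end

/-- the inclusion in the unitization -/
def inc (R : Type) [NonUnitalRing R] : R →ₙ+* Unitization ℤ R where
  toFun r := (r : Unitization ℤ R)
  map_mul' a b := Unitization.inr_mul ℤ a b
  map_zero' := Unitization.inr_zero ℤ
  map_add' a b := Unitization.inr_add ℤ a b

theorem taskDim : TaskDim := by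
  intro R M _ _ _ k hx hFS hk
  obtain ⟨hsimple, hfaith⟩ := hFS
  have hid : ∀ (r : R) (a : Unitization ℤ R), ∃ s : R, inc R s = inc R r * a := by
    intro r a
    refine ⟨(inc R r * a).snd, ?_⟩
    apply Unitization.ext
    · show (0 : ℤ) = (inc R r * a).fst
      rw [Unitization.fst_mul]
      show (0 : ℤ) = 0 * a.fst
      rw [zero_mul]
    · rfl
  exact gen (R := R) (A := Unitization ℤ R) (M := M) (inc R) hid k hx hfaith hk

end Pool.Agent.H150R3.CR
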